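import Pool.Agent.Helper43.MU.Sub

/-!
# One class of lattices if the residual representation is irreducible
-/

set_option autoImplicit false

namespace MU

lemma lrg_unit (l : ℕ) [Fact l.Prime] (x : ℤ_[l]) (hx : PadicInt.toZMod x ≠ 0) : IsUnit x := by
  by_contra h
  apply hx
  have h1 : x ∈ RingHom.ker (PadicInt.toZMod : ℤ_[l] →+* ZMod l) := by
    rw [PadicInt.ker_toZMod]
    exact (IsLocalRing.mem_maximalIdeal x).2 h
  exact h1

theorem st_LARGE : ST_LARGE := by
  intro G _ n l _ r s hirr hus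
  obtain ⟨u, hu⟩ := hus
  classical
  rcases Nat.eq_zero_or_pos n with rfl | hn
  · refine ⟨1, fun g => ?_⟩
    apply Units.ext
    ext i
    exact i.elim0
  have : Nonempty (Fin n) := ⟨⟨0, hn⟩⟩
  obtain ⟨ij, hmax⟩ := Finite.exists_max
    (fun ij : Fin n × Fin n => ‖(u : Matrix (Fin n) (Fin n) ℚ_[l]) ij.1 ij.2‖)
  set c : ℚ_[l] := (u : Matrix (Fin n) (Fin n) ℚ_[l]) ij.1 ij.2 with hcdef
  have hc : c ≠ 0 := by
    intro h0
    have h1 : (u : Matrix (Fin n) (Fin n) ℚ_[l]) = 0 := by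
      ext i j
      have h2 := hmax (i, j)
      rw [h0, norm_zero] at h2
      exact norm_le_zero_iff.1 h2
    exact u.ne_zero h1
  have hle : ∀ i j, ‖c⁻¹ * (u : Matrix (Fin n) (Fin n) ℚ_[l]) i j‖ ≤ 1 := by
    intro i j
    rw [norm_mul, norm_inv]
    have h2 := hmax (i, j)
    rw [inv_mul_le_one₀ (norm_pos_iff.2 hc)]
    exact h2
  let v : Matrix (Fin n) (Fin n) ℤ_[l] := fun i j => ⟨_, hle i j⟩
  have hv : v.map (algebraMap ℤ_[l] ℚ_[l]) = c⁻¹ • (u : Matrix (Fin n) (Fin n) ℚ_[l]) := by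
    ext i j
    rfl
  have hinj : Function.Injective
      (fun a : Matrix (Fin n) (Fin n) ℤ_[l] => a.map (algebraMap ℤ_[l] ℚ_[l])) := by
    intro a b hab
    ext i j
    have h1 := congrFun (congrFun hab i) j
    have h2 : a i j = b i j := Subtype.coe_injective h1
    rw [h2]
  have hvr : ∀ g, v * (r g : Matrix (Fin n) (Fin n) ℤ_[l]) =
      (s g : Matrix (Fin n) (Fin n) ℤ_[l]) * v := by
    intro g
    apply hinj
    change (v * (r g : Matrix (Fin n) (Fin n) ℤ_[l])).map (algebraMap ℤ_[l] ℚ_[l]) =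
      ((s g : Matrix (Fin n) (Fin n) ℤ_[l]) * v).map (algebraMap ℤ_[l] ℚ_[l])
    rw [Matrix.map_mul, Matrix.map_mul, hv, Matrix.smul_mul, Matrix.mul_smul]
    exact congrArg (fun a => c⁻¹ • a) (hu g)
  let vb : Matrix (Fin n) (Fin n) (ZMod l) := v.map PadicInt.toZMod
  have hvb : ∀ g, vb * res r g = res s g * vb := by
    intro g
    have h1 := congrArg (fun a : Matrix (Fin n) (Fin n) ℤ_[l] => a.map PadicInt.toZMod) (hvr g)
    simp only [Matrix.map_mul] at h1
    exact h1
  have hvij : vb ij.1 ij.2 = 1 := by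
    have h1 : v ij.1 ij.2 = 1 := by
      apply Subtype.ext
      change c⁻¹ * c = 1
      exact inv_mul_cancel₀ hc
    change PadicInt.toZMod (v ij.1 ij.2) = 1
    rw [h1, map_one]
  rcases irr_stable hirr (LinearMap.ker vb.mulVecLin) (by
    intro g x hx
    rw [LinearMap.mem_ker, Matrix.mulVecLin_apply] at hx ⊢
    rw [Matrix.mulVec_mulVec, hvb g, ← Matrix.mulVec_mulVec, hx, Matrix.mulVec_zero]) with h | h
  · have hdet : vb.det ≠ 0 := by
      intro h0
      obtain ⟨x, hx0, hx⟩ := Matrix.exists_mulVec_eq_zero_iff.2 h0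
      apply hx0
      have h1 : x ∈ LinearMap.ker vb.mulVecLin := by
        rw [LinearMap.mem_ker, Matrix.mulVecLin_apply, hx]
      rw [h, Submodule.mem_bot] at h1
      exact h1
    have hdet2 : PadicInt.toZMod v.det ≠ 0 := by
      rw [RingHom.map_det]
      exact hdet
    have hun : IsUnit v.det := lrg_unit l _ hdet2
    refine ⟨Matrix.GeneralLinearGroup.mk'' v hun, fun g => ?_⟩
    apply Units.ext
    exact hvr g
  · exfalso
    have h1 : (Pi.single ij.2 1 : Fin n → ZMod l) ∈ LinearMap.ker vb.mulVecLin := by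
      rw [h]
      exact Submodule.mem_top
    rw [LinearMap.mem_ker, Matrix.mulVecLin_apply, Matrix.mulVec_single_one] at h1
    have h2 := congrFun h1 ij.1
    rw [Matrix.col_apply, hvij, Pi.zero_apply] at h2
    exact one_ne_zero h2

end MU
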