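import Pool.Agent.Helper85.MU.Stmts

/-!
# Equality of traces for `l = 2` implies equality for all `l`
-/

set_option autoImplicit false

open NumberField

namespace MU

section

variable {F : Type} [Field F] [NumberField F] {S : Finset ℕ} {n w : ℕ} {h : Fin n → ℕ}

/-- the trace of (a power of) a Frobenius element is an integer independent of `l` -/
lemma trq_trace (M : Mot F S n w h) (p : ℕ) (hp : p.Prime) (hpS : p ∉ S)
    (𝔓 : Ideal (Zb F)) (hO : Over p 𝔓) (k : ℕ) (σ : Gal F) (hk : 1 ≤ k)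
    (hσ : CongPow 𝔓 (p ^ k) σ) :
    ∃ t : ℤ, ∀ (l : ℕ) [Fact l.Prime], l ≠ p →
      ((M.ρ l σ⁻¹ : Matrix.GeneralLinearGroup (Fin n) ℤ_[l]) :
        Matrix (Fin n) (Fin n) ℤ_[l]).trace = (t : ℤ_[l]) := by
  obtain ⟨P, hroot, hP⟩ := M.pure p hp hpS 𝔓 hO k σ hk hσ
  refine ⟨-P.nextCoeff, ?_⟩
  intro l _ hl
  have hinj : Function.Injective (Int.castRingHom ℤ_[l]) := (Int.castRingHom ℤ_[l]).injective_int
  rw [Matrix.trace_eq_neg_charpoly_nextCoeff, hP l hl, Polynomial.nextCoeff_map hinj]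
  push_cast
  rfl

lemma trq_rat_trace (M : Mot F S n w h) (l : ℕ) [Fact l.Prime] (g : Gal F) :
    (rat (M.ρ l) g).trace =
      (((M.ρ l g : Matrix (Fin n) (Fin n) ℤ_[l]).trace : ℤ_[l]) : ℚ_[l]) := by
  have h1 : rat (M.ρ l) g =
    (M.ρ l g : Matrix (Fin n) (Fin n) ℤ_[l]).map (algebraMap ℤ_[l] ℚ_[l]) := rfl
  rw [h1, Matrix.trace, Matrix.trace]
  simp only [Matrix.diag_apply, Matrix.map_apply]
  exact (map_sum (algebraMap ℤ_[l] ℚ_[l]) _ _).symm

/-- reduction of the matrices modulo `l ^ k` -/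
noncomputable def trqRed (n l k : ℕ) [Fact l.Prime] :
    Matrix (Fin n) (Fin n) ℤ_[l] →+* Matrix (Fin n) (Fin n) (ZMod (l ^ k)) :=
  (PadicInt.toZModPow k).mapMatrix

lemma trqRed_trace (n l k : ℕ) [Fact l.Prime] (a : Matrix (Fin n) (Fin n) ℤ_[l]) :
    (trqRed n l k a).trace = PadicInt.toZModPow k a.trace := by
  have h1 : trqRed n l k a = a.map (PadicInt.toZModPow k) := rfl
  rw [h1, Matrix.trace, Matrix.trace]
  simp only [Matrix.diag_apply, Matrix.map_apply]
  exact (map_sum (PadicInt.toZModPow k) _ _).symm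

/-- the kernel of the reduction of `ρ l` -/
noncomputable def trqY (M : Mot F S n w h) (l k : ℕ) [Fact l.Prime] : Subgroup (Gal F) :=
  ((trqRed n l k).toMonoidHom.comp ((Units.coeHom _).comp (M.ρ l))).ker

lemma trqY_iff (M : Mot F S n w h) (l k : ℕ) [Fact l.Prime] (g : Gal F) :
    g ∈ trqY M l k ↔ trqRed n l k (M.ρ l g : Matrix (Fin n) (Fin n) ℤ_[l]) = 1 := Iff.rfl

lemma trq_open_fiber (l k : ℕ) [Fact l.Prime] (a : ℤ_[l]) :
    IsOpen {x : ℤ_[l] | PadicInt.toZModPow k x = PadicInt.toZModPow k a} := by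
  have h1 : {x : ℤ_[l] | PadicInt.toZModPow k x = PadicInt.toZModPow k a} =
      Metric.closedBall a ((l : ℝ) ^ (-(k : ℤ))) := by
    ext x
    rw [Set.mem_ofPred_eq, Metric.mem_closedBall, dist_eq_norm,
      PadicInt.norm_le_pow_iff_mem_span_pow, ← PadicInt.ker_toZModPow, RingHom.mem_ker, map_sub,
      sub_eq_zero]
  rw [h1]
  refine IsUltrametricDist.isOpen_closedBall _ ?_
  have hl : (0 : ℝ) < l := by exact_mod_cast (Fact.out : l.Prime).pos
  exact (zpow_pos hl _).ne'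

lemma trqY_open (M : Mot F S n w h) (l k : ℕ) [Fact l.Prime] :
    IsOpen (trqY M l k : Set (Gal F)) := by
  have hc : Continuous (fun g : Gal F => (M.ρ l g : Matrix (Fin n) (Fin n) ℤ_[l])) :=
    Units.continuous_val.comp (M.continuous l)
  have h1 : (trqY M l k : Set (Gal F)) = ⋂ i : Fin n, ⋂ j : Fin n,
      (fun g : Gal F => (M.ρ l g : Matrix (Fin n) (Fin n) ℤ_[l]) i j) ⁻¹'
        {x : ℤ_[l] | PadicInt.toZModPow k x =
          PadicInt.toZModPow k ((1 : Matrix (Fin n) (Fin n) ℤ_[l]) i j)} := by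
    ext g
    rw [SetLike.mem_coe, trqY_iff, ← map_one (trqRed n l k)]
    simp only [Set.mem_iInter, Set.mem_preimage, Set.mem_ofPred_eq]
    constructor
    · intro hg i j
      exact congrFun (congrFun hg i) j
    · intro hg
      ext i j
      exact hg i j
  rw [h1]
  refine isOpen_iInter_of_finite fun i => isOpen_iInter_of_finite fun j => ?_
  refine (trq_open_fiber l k _).preimage ?_
  exact (continuous_apply_apply i j).comp hc

/-- the trace modulo `l ^ k` depends only on the coset of `Y` -/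
lemma trq_mod (M : Mot F S n w h) (l k : ℕ) [Fact l.Prime] (g σ : Gal F)
    (hg : g * σ ∈ trqY M l k) :
    PadicInt.toZModPow k (M.ρ l g : Matrix (Fin n) (Fin n) ℤ_[l]).trace =
      PadicInt.toZModPow k (M.ρ l σ⁻¹ : Matrix (Fin n) (Fin n) ℤ_[l]).trace := by
  have h1 : (M.ρ l g : Matrix (Fin n) (Fin n) ℤ_[l]) =
      (M.ρ l (g * σ) : Matrix (Fin n) (Fin n) ℤ_[l]) *
        (M.ρ l σ⁻¹ : Matrix (Fin n) (Fin n) ℤ_[l]) := by
    rw [← Units.val_mul, ← map_mul, mul_inv_cancel_right]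
  rw [← trqRed_trace, ← trqRed_trace, h1, map_mul, (trqY_iff M l k _).1 hg, one_mul]

end

theorem st_TRQ (hFRB : ST_FRB) : ST_TRQ := by
  intro F _ _ S hS n w h M M' h2 l _ g
  rw [trq_rat_trace, trq_rat_trace]
  have key : (M.ρ l g : Matrix (Fin n) (Fin n) ℤ_[l]).trace =
      (M'.ρ l g : Matrix (Fin n) (Fin n) ℤ_[l]).trace := by
    refine PadicInt.ext_of_toZModPow.1 fun k => ?_
    have hn1 : (trqY M l k).Normal := MonoidHom.normal_ker _
    have hn2 : (trqY M' l k).Normal := MonoidHom.normal_ker _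
    have hY : (trqY M l k ⊓ trqY M' l k).Normal := inferInstance
    have hYo : IsOpen ((trqY M l k ⊓ trqY M' l k : Subgroup (Gal F)) : Set (Gal F)) := by
      rw [Subgroup.coe_inf]
      exact (trqY_open M l k).inter (trqY_open M' l k)
    obtain ⟨p, 𝔓, j, σ, hp, hpS, hO, hj, hσ, hgs⟩ :=
      hFRB F (trqY M l k ⊓ trqY M' l k) hY hYo (insert 2 (insert l S)) g⁻¹
    rw [inv_inv] at hgs
    have hp2 : (2 : ℕ) ≠ p := fun hq => hpS (by rw [← hq]; exact Finset.mem_insert_self _ _)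
    have hpl : l ≠ p := fun hq => hpS
      (by rw [← hq]; exact Finset.mem_insert_of_mem (Finset.mem_insert_self _ _))
    have hpS' : p ∉ S := fun hq => hpS (Finset.mem_insert_of_mem (Finset.mem_insert_of_mem hq))
    obtain ⟨t, ht⟩ := trq_trace M p hp hpS' 𝔓 hO j σ hj hσ
    obtain ⟨t', ht'⟩ := trq_trace M' p hp hpS' 𝔓 hO j σ hj hσ
    have htt : t = t' := by
      have h3 := h2 σ⁻¹
      rw [trq_rat_trace, trq_rat_trace, ht 2 hp2, ht' 2 hp2] at h3
      have h4 : ((t : ℤ_[2]) : ℚ_[2]) = ((t' : ℤ_[2]) : ℚ_[2]) := h3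
      have h5 : (t : ℤ_[2]) = (t' : ℤ_[2]) := Subtype.coe_injective h4
      exact_mod_cast h5
    rw [trq_mod M l k g σ hgs.1, trq_mod M' l k g σ hgs.2, ht l hpl, ht' l hpl, htt]
  rw [key]

end MU
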